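import Pool.Agent.W166.Gnp.MainA
import Pool.Agent.W166.Gnp.Thr

set_option autoImplicit false

/-! # The chromatic threshold of graphs of chromatic number at least four in sparse random graphs

For every graph `H` with `χ(H) = r ≥ 4` and every `p = p(n)` with `log n / n ≪ p ≪ 1` one has
`δ_χ(H,p) ≥ π(H) = (r - 2) / (r - 1)`. -/

namespace Pool.Agent.Results.MP_46505f_co.FourChromatic

open Filter Topology

open Classical in
/-- the probability that the random graph `G_{n,p}` has the property `A` -/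
noncomputable def gnp (n : ℕ) (p : ℝ) (A : SimpleGraph (Fin n) → Prop) : ℝ :=
  ∑ Γ : SimpleGraph (Fin n),
    if A Γ then p ^ Γ.edgeSet.ncard * (1 - p) ^ (n.choose 2 - Γ.edgeSet.ncard) else 0

/-- the chromatic threshold `δ_χ(H,p)` -/
noncomputable def chromThreshold {k : ℕ} (H : SimpleGraph (Fin k)) (p : ℕ → ℝ) : ℝ :=
  sInf {d : ℝ | 0 < d ∧ ∃ C : ℕ, 0 < C ∧ Tendsto (fun n : ℕ => gnp n (p n) (fun Γ =>
    ∀ G : SimpleGraph (Fin n), G ≤ Γ → ¬ H.IsContained G →
      (∀ v, d * p n * n ≤ ((G.neighborSet v).ncard : ℝ)) → G.Colorable C)) atTop (𝓝 1)}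

open Pool.Agent.W166.Gnp

lemma gnp_eq (n : ℕ) (p : ℝ) (A : SimpleGraph (Fin n) → Prop) : gnp n p A =
    Pr (allE n) p (fun S => A (SimpleGraph.fromEdgeSet (S : Set (Sym2 (Fin n))))) := by
  classical
  unfold gnp
  exact sum_eq_Pr p A

/-- **Theorem.**  `δ_χ(H,p) ≥ (r - 2) / (r - 1)` for every `H` with `χ(H) = r ≥ 4` and every `p` with
`log n / n ≪ p ≪ 1`; moreover, for every `d < (r - 2) / (r - 1)` and every `C`, with probability
tending to `1` the random graph has an `H`-free spanning subgraph of minimum degree at least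
`d p n` and chromatic number larger than `C`. -/
theorem result {k : ℕ} (H : SimpleGraph (Fin k)) (r : ℕ) (hr : 4 ≤ r) (hH : H.chromaticNumber = r)
    (p : ℕ → ℝ) (hp : ∀ n, 0 < p n ∧ p n ≤ 1) (hp0 : Tendsto p atTop (𝓝 0))
    (hlog : Tendsto (fun n : ℕ => Real.log n / n / p n) atTop (𝓝 0)) :
    ((r : ℝ) - 2) / ((r : ℝ) - 1) ≤ chromThreshold H p ∧
    ∀ d : ℝ, d < ((r : ℝ) - 2) / ((r : ℝ) - 1) → ∀ C : ℕ,
      Tendsto (fun n : ℕ => gnp n (p n) (fun Γ => ∃ G : SimpleGraph (Fin n), G ≤ Γ ∧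
        ¬ H.IsContained G ∧ (∀ v, d * p n * n ≤ ((G.neighborSet v).ncard : ℝ)) ∧
        ¬ G.Colorable C)) atTop (𝓝 1) := by
  obtain ⟨q, rfl⟩ : ∃ q, r = q + 1 := ⟨r - 1, by omega⟩
  have hq : 3 ≤ q := by omega
  have hqr : (3 : ℝ) ≤ q := by exact_mod_cast hq
  have hcol : ¬ H.Colorable q := by
    intro h
    have h1 := h.chromaticNumber_le
    rw [hH] at h1
    have h2 : q + 1 ≤ q := by exact_mod_cast h1
    omega
  have hval : (((q + 1 : ℕ) : ℝ) - 2) / (((q + 1 : ℕ) : ℝ) - 1) = 1 - 1 / (q : ℝ) := by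
    push_cast
    have : (q : ℝ) + 1 - 1 ≠ 0 := by linarith
    field_simp
    ring
  rw [hval]
  have hlogev : ∀ A : ℝ, 0 < A → ∀ᶠ n : ℕ in atTop, A * Real.log n ≤ p n * n := by
    intro A hA
    filter_upwards [hlog.eventually (gt_mem_nhds (show 0 < 1 / A by positivity)),
      eventually_ge_atTop 1] with n hn hn1
    have hn0 : (0 : ℝ) < n := by exact_mod_cast hn1
    rw [div_div, div_lt_div_iff₀ (mul_pos hn0 (hp n).1) hA, one_mul] at hn
    linarith
  have hmain : ∀ (C : ℕ) (ε : ℝ), 0 < ε → ∀ η : ℝ, 0 < η → ∀ᶠ n : ℕ in atTop,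
      Pr (allE n) (p n) (fun S => ¬ ∃ G : SimpleGraph (Fin n),
        G ≤ SimpleGraph.fromEdgeSet (S : Set (Sym2 (Fin n))) ∧ ¬ H.IsContained G ∧
        (∀ v, (1 - 1 / (q : ℝ) - ε) * (p n * n) ≤ ((G.neighborSet v).ncard : ℝ)) ∧
        ¬ G.Colorable C) ≤ η := by
    intro C ε hε η hη
    obtain ⟨p0, A, n0, hp0', hA, hmain⟩ := mainA hq H hcol C ε hε η hη
    filter_upwards [hlogev A hA, hp0.eventually (gt_mem_nhds hp0'), eventually_ge_atTop n0]
      with n b1 b2 b3
    exact hmain n b3 (p n) (hp n).1 b2.le b1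
  constructor
  · refine thr_lower H p hp (fun n A => gnp n (p n) A) (fun n A => gnp_eq n (p n) A) _ ?_ ?_
    · intro C ε hε
      exact hmain C ε hε (1 / 4) (by norm_num)
    · have h3 : ∀ᶠ n : ℕ in atTop, (n : ℝ) ≤ p n * (n : ℝ) ^ 2 := by
        have hl1 : ∀ᶠ n : ℕ in atTop, 1 ≤ Real.log (n : ℝ) :=
          (Real.tendsto_log_atTop.comp tendsto_natCast_atTop_atTop).eventually_ge_atTop 1
        filter_upwards [hlogev 1 one_pos, hl1] with n hn hn1
        have h7 : 1 ≤ p n * n := by linarith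
        have : (0 : ℝ) ≤ n := Nat.cast_nonneg n
        nlinarith
      exact tendsto_atTop_mono' atTop h3 tendsto_natCast_atTop_atTop
  · intro d hd C
    rw [tendsto_order]
    constructor
    · intro a ha
      filter_upwards [hmain C (1 - 1 / (q : ℝ) - d) (by linarith) ((1 - a) / 2) (by linarith)]
        with n hn
      rw [Pr_not] at hn
      rw [gnp_eq]
      have h1 : 1 - (1 - a) / 2 ≤ Pr (allE n) (p n) (fun S => ∃ G : SimpleGraph (Fin n),
          G ≤ SimpleGraph.fromEdgeSet (S : Set (Sym2 (Fin n))) ∧ ¬ H.IsContained G ∧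
          (∀ v, (1 - 1 / (q : ℝ) - (1 - 1 / (q : ℝ) - d)) * (p n * n) ≤
            ((G.neighborSet v).ncard : ℝ)) ∧ ¬ G.Colorable C) := by linarith
      have h2 : a < 1 - (1 - a) / 2 := by linarith
      refine h2.trans_le (h1.trans ?_)
      apply Pr_mono (hp n).1.le (hp n).2
      rintro S _ ⟨G, hG1, hG2, hG3, hG4⟩
      refine ⟨G, hG1, hG2, fun v => le_trans (le_of_eq ?_) (hG3 v), hG4⟩
      ring
    · intro a ha
      filter_upwards with n
      rw [gnp_eq]
      exact lt_of_le_of_lt (Pr_le_one (hp n).1.le (hp n).2 _) ha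

end Pool.Agent.Results.MP_46505f_co.FourChromatic
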